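import Pool.Agent.K7.H83.RT.Core
import Pool.Agent.K7.H42.RT_TR
import Pool.Agent.K7.H93.RT_LIM

/-!
# MP_f9e5d9_nt: distinct ratios `a_j / gcd(a_i, a_j)` among `n` integers, `lim log h(n) / log n = 1/2`

Lower bound: `b / a` is the quotient of two elements `b / gcd(a, b)`, `a / gcd(a, b)` of `R`, so
`n ≤ h(n) ^ 2`.

Upper bound: integers are vectors of exponents, and `b / gcd(a, b)` is the positive part of the
difference.  Call a family of sets `A` (parameter `B`) of integer vectors of type `(V, T)` if
`|A| ≥ B ^ V`, the differences lie in a set `D` of `O(B ^ V)` vectors with sum zero, and the positive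
parts of the perturbations by at most `B` of the elements of `D` lie in a set of `O(B ^ T)` vectors.
One point is of type `(0, 1)`.  Given type `(V, T)`, take groups `g = 0, ..., m - 1` of `N_g` pairs of
copies of the structure with the parameter `B ^ e_g`, `N_g e_g = n`, `e_g` growing fast, and add a
common number `v`, `0 ≤ v < B ^ α`, with the sign `+` in the first and `-` in the second copy of each
pair.  For a difference with a given `|v|` the groups with small `e_g` have one copy with positive
part zero (the sign is wrong) and one copy in full, the groups with large `e_g` see `v` as a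
perturbation.  The new type is `n (2mT + mV + 2V + 1, 2mT + 2V + 2)`, so the ratio `V / T` can be
moved from `r` to any number less than `1 + r / 2`, and tends to `2`.
-/

set_option autoImplicit false

namespace Pool.Agent.Results.MP_f9e5d9_nt.LimitOneHalf

open Filter Topology

/-- `R(S)`: the set of the quotients `b / gcd(a, b)`, `a, b ∈ S` -/
def ratios (S : Finset ℕ) : Finset ℕ := (S ×ˢ S).image (fun p => p.2 / Nat.gcd p.1 p.2)

/-- `h n`: the least number of elements of `R(S)` over all sets `S` of `n` positive integers -/
noncomputable def h (n : ℕ) : ℕ :=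
  sInf {m : ℕ | ∃ S : Finset ℕ, S.card = n ∧ (∀ a ∈ S, 0 < a) ∧ (ratios S).card = m}

/-- `h n` is the largest `k` such that `|R(S)| ≥ k` for all sets `S` of `n` positive integers, and
`log h(n) / log n → 1 / 2`. -/
theorem result :
    (∀ n : ℕ, IsGreatest {k : ℕ | ∀ S : Finset ℕ, S.card = n → (∀ a ∈ S, 0 < a) →
      k ≤ (ratios S).card} (h n)) ∧
    Tendsto (fun n : ℕ => Real.log (h n) / Real.log n) atTop (𝓝 (1 / 2)) := by
  refine ⟨fun n => ⟨fun S h1 h2 => Pool.Agent.K7.H93.RTLIM.h_le S h1 h2, fun k hk => ?_⟩,
    Pool.Agent.K7.H93.RTLIM.stLim Pool.Agent.K7.H42.RT.stTR Pool.Agent.K7.H83.RT.stCore⟩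
  obtain ⟨S, h1, h2, h3⟩ := Pool.Agent.K7.H93.RTLIM.exists_h n
  have := hk S h1 h2
  have h4 : (ratios S).card = h n := h3
  rwa [h4] at this

end Pool.Agent.Results.MP_f9e5d9_nt.LimitOneHalf
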